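import Pool.Agent.Run7.h426.Components

/-!
# Graphs with a unique proper sum-colouring 3-weighting

The triangle is uniquely `{1,2,3}`-weight colourable, and it is the only connected graph with at
least one edge which is; in general, a finite graph is uniquely `{1,2,3}`-weight colourable if and
only if all its components are isolated vertices or triangles.

Sketch of the proof. Let `P` be the product over the edges `uv` of the differences of the sums at
`u` and `v`, a polynomial of degree `m = |E|` in the `m` weights.

* Orbits: if an edge joined two different orbits of the automorphism group, then the product of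
  the differences over the edges between the orbit of `u` and its complement (oriented from the
  orbit to the complement) and of the squares of the differences over the other edges would have
  degree less than `2 m`, so its sum over `{1,2,3}^m` with the weights `1, -2, 1` in each
  coordinate vanishes; but it is a nonzero constant on the orbit of a proper weighting.
  So a connected example is vertex-transitive.
* Counting: by the theorem of Alon and Furedi, `P` has at least `3 ^ (m / 2)` non-zeros on
  `{1,2,3}^m`, so the automorphism group has at least that order. For a connected `d`-regular graph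
  on `n` vertices that order is at most `n * d! * (d / 2) ^ (n - 1 - d)`. This leaves only
  `(n, d) = (2, 1)` and `(3, 2)`.
-/

namespace Pool.Agent.Results.MP_9e9a14_co.UniqueThreeWeighting

open SimpleGraph Run7.h426.ThreeWeight

open scoped Classical

variable {V : Type*} [Fintype V]

lemma iso_of_unique (G : SimpleGraph V) (hconn : G.Connected)
    (hU : UniquelyThreeWeightColourable G) :
    Nonempty (G ≃g (⊤ : SimpleGraph (Fin 1))) ∨ Nonempty (G ≃g (⊤ : SimpleGraph (Fin 3))) := by
  by_cases h : ∃ u v, G.Adj u v
  · right
    obtain ⟨u, v, huv⟩ := h
    obtain ⟨h1, h2⟩ := three_of_unique hconn hU huv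
    refine ⟨⟨Fintype.equivFinOfCardEq h1, ?_⟩⟩
    intro a b
    rw [top_adj]
    constructor
    · intro hab
      exact h2 a b (fun k => hab (by rw [k]))
    · intro hab k
      exact hab.ne ((Fintype.equivFinOfCardEq h1).injective k)
  · left
    push Not at h
    have hsub : Subsingleton V := by
      refine ⟨fun a b => ?_⟩
      by_contra hab
      have hnt : Nontrivial V := ⟨a, b, hab⟩
      obtain ⟨c, hc⟩ := hconn.preconnected.exists_adj_of_nontrivial a
      exact h _ _ hc
    obtain ⟨v₀⟩ := hconn.nonempty
    have h1 : Fintype.card V = 1 := Fintype.card_eq_one_iff.2 ⟨v₀, fun y => Subsingleton.elim _ _⟩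
    refine ⟨⟨Fintype.equivFinOfCardEq h1, ?_⟩⟩
    intro a b
    rw [top_adj]
    constructor
    · intro hab
      exact absurd (Subsingleton.elim _ _) hab
    · intro hab
      exact absurd hab (h a b)

/-- A finite graph has exactly one edge 3-weighting, up to isomorphism, that properly colours its
vertices by sums, if and only if each of its components is an isolated vertex or a triangle. -/
theorem result (G : SimpleGraph V) :
    UniquelyThreeWeightColourable G ↔ ∀ K : G.ConnectedComponent,
      Nonempty (K.toSimpleGraph ≃g completeGraph (Fin 1)) ∨
      Nonempty (K.toSimpleGraph ≃g completeGraph (Fin 3)) := by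
  constructor
  · intro hU K
    exact iso_of_unique _ K.connected_toSimpleGraph (comp_unique hU K)
  · intro h
    have hgood : ∀ a b, G.Adj a b → good G (⊤ : SimpleGraph (Fin 3)) a := by
      intro a b hab
      rcases h (G.connectedComponentMk a) with ⟨⟨ψ⟩⟩ | h3
      · exfalso
        have ha' : a ∈ G.connectedComponentMk a := rfl
        have hb' : b ∈ G.connectedComponentMk a :=
          (G.connectedComponentMk a).mem_supp_of_adj_mem_supp ha' hab
        have h1 := ψ.injective (Subsingleton.elim (ψ ⟨a, ha'⟩) (ψ ⟨b, hb'⟩))
        exact hab.ne (congrArg Subtype.val h1)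
      · exact h3
    constructor
    · obtain ⟨Ψ, hΨ⟩ := exists_chart G (⊤ : SimpleGraph (Fin 3))
      obtain ⟨⟨y, hy1, hy2⟩, -⟩ := triangle_unique
      exact ⟨_, place_spec hΨ hy1 hy2 (w₀ := fun _ => 0)
        (fun a b hab hn => absurd (hgood a b hab) hn)
        (fun a b hab hn => absurd (hgood a b hab) hn)⟩
    · intro w w' h1 h2 h3 h4
      refine unique_of_comp ?_ w w' h1 h2 h3 h4
      intro K y y' g1 g2 g3 g4
      rcases h K with ⟨⟨ψ⟩⟩ | ⟨⟨ψ⟩⟩
      · refine ⟨Iso.refl, fun e he => ?_⟩
        exfalso
        induction e with
        | _ a b =>
          have hab : K.toSimpleGraph.Adj a b := he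
          exact hab.ne (ψ.injective (Subsingleton.elim _ _))
      · exact (unique_transport ψ triangle_unique).2 y y' g1 g2 g3 g4

end Pool.Agent.Results.MP_9e9a14_co.UniqueThreeWeighting
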